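import Pool.Agent.helper64.D2.SpecR

set_option autoImplicit false

open Filter Topology
open scoped commutatorElement

namespace Pool.Agent.helper64.D2

/-- `X'` has derivative `X''`. -/
theorem RI2_hd (X : ℝ → ℝ) (h : ContDiff ℝ 2 X) (x : ℝ) : HasDerivAt (deriv X) (d2 X x) x := by
  have h1 : ContDiff ℝ 1 (deriv X) := by
    have h2 : (1 : WithTop ℕ∞) + 1 = 2 := by norm_num
    have h3 : ContDiff ℝ (1 + 1) X := by rw [h2]; exact h
    exact (contDiff_succ_iff_deriv.1 h3).2.2
  have h2 : DifferentiableAt ℝ (deriv X) x := (h1.differentiable (by norm_num)) x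
  exact h2.hasDerivAt

theorem RI2_cd (X : ℝ → ℝ) (h : ContDiff ℝ 2 X) : Continuous (deriv X) ∧ Continuous (d2 X) := by
  have h1 : ContDiff ℝ 1 (deriv X) := by
    have h2 : (1 : WithTop ℕ∞) + 1 = 2 := by norm_num
    have h3 : ContDiff ℝ (1 + 1) X := by rw [h2]; exact h
    exact (contDiff_succ_iff_deriv.1 h3).2.2
  exact ⟨h1.continuous, h1.continuous_deriv (by norm_num)⟩

/-- `X'' = 0` off `[p,q]`. -/
theorem RI2_zero (X : ℝ → ℝ) (p q : ℝ) (h : ∀ x, x ∉ Set.Icc p q → X x = 0) (x : ℝ) (hx : x ∉ Set.Icc p q) : d2 X x = 0 := by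
  have ho : IsOpen ((Set.Icc p q)ᶜ) := isClosed_Icc.isOpen_compl
  have h1 : ∀ y, y ∉ Set.Icc p q → deriv X y = 0 := by
    intro y hy
    have : X =ᶠ[𝓝 y] fun _ => (0 : ℝ) := by
      filter_upwards [ho.mem_nhds hy] with z hz using h z hz
    rw [this.deriv_eq]; simp
  have : deriv X =ᶠ[𝓝 x] fun _ => (0 : ℝ) := by
    filter_upwards [ho.mem_nhds hx] with z hz using h1 z hz
  unfold d2
  rw [this.deriv_eq]; simp

/-- The integral of a nonnegative function zero off `[1/4,3/4]`. -/
theorem RI2_int (g : ℝ → ℝ) (hg : Continuous g) (h0 : ∀ x, 0 ≤ g x) (hz : ∀ x, x ∉ Set.Icc (1 / 4 : ℝ) (3 / 4) → g x = 0)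
    (a b : ℝ) (hab : a ≤ b) : (∫ x in a..b, g x) ≤ ∫ x in (0 : ℝ)..1, g x := by
  have hi : ∀ s t : ℝ, IntervalIntegrable g MeasureTheory.volume s t := fun s t => hg.intervalIntegrable s t
  have h1 : (∫ x in a..b, g x) ≤ ∫ x in (min a 0)..(max b 1), g x := by
    apply intervalIntegral.integral_mono_interval (min_le_left _ _) hab (le_max_left _ _) _ (hi _ _)
    exact Filter.Eventually.of_forall h0
  have h2 : (∫ x in (min a 0)..(0 : ℝ), g x) = 0 := by
    apply intervalIntegral.integral_zero_ae
    refine Filter.Eventually.of_forall ?_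
    intro x hx
    apply hz
    rw [Set.uIoc_of_le (min_le_right _ _)] at hx
    intro h
    have := hx.2
    have := h.1
    linarith
  have h3 : (∫ x in (1 : ℝ)..(max b 1), g x) = 0 := by
    apply intervalIntegral.integral_zero_ae
    refine Filter.Eventually.of_forall ?_
    intro x hx
    apply hz
    rw [Set.uIoc_of_le (le_max_right _ _)] at hx
    intro h
    have := hx.1
    have := h.2
    linarith
  have h4 := intervalIntegral.integral_add_adjacent_intervals (hi (min a 0) 0) (hi 0 1)
  have h5 := intervalIntegral.integral_add_adjacent_intervals (hi (min a 0) 1) (hi 1 (max b 1))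
  linarith

theorem RI2 (hRG1 : RG1_stmt) (hRI1 : RI1_stmt) : RI2_stmt := by
  intro X G p q a lam hSH hG u β μ hβ hμ
  obtain ⟨hH, hHm, -⟩ := hRG1 X p q a lam hSH
  have hS := hSH
  obtain ⟨hX, hX0, hX1, hX2, hp, hpq, hq, hl0, hl1, ha⟩ := hS
  obtain ⟨hc1, hc2⟩ := RI2_cd X hX
  have hd := RI2_hd X hX
  have hpos : ∀ x, (15 : ℝ) / 16 ≤ 1 + deriv X x / 2 := by
    intro x
    have := (abs_le.1 (hX1 x)).1
    linarith
  have hup : ∀ x, 1 + deriv X x / 2 ≤ 1 + lam / 2 := by
    intro x
    have := (abs_le.1 (hX1 x)).2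
    linarith
  have hzz : ∀ x, x ∉ Set.Icc (1 / 4 : ℝ) (3 / 4) → d2 X x = 0 := by
    intro x hx
    apply RI2_zero X p q hX0
    intro h
    exact hx ⟨by linarith [h.1], by linarith [h.2]⟩
  have hle : G (Hh X u - β) ≤ u := by
    apply (hHm.le_iff_le).1
    rw [hG.2.1]
    linarith
  refine ⟨?_, ?_, ?_⟩
  · have hgc : Continuous (fun w => Real.cosh (μ * d2 X w) - 1) :=
      (Real.continuous_cosh.comp (continuous_const.mul hc2)).sub continuous_const
    have hg0 : ∀ w, 0 ≤ Real.cosh (μ * d2 X w) - 1 := by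
      intro w
      have := Real.one_le_cosh (μ * d2 X w)
      linarith
    have e := (hRI1 X G p q a lam hSH hG (fun w => Real.cosh (μ * d2 X w) - 1) hgc u β).1
    rw [e]
    have h1 : (∫ w in (G (Hh X u - β))..u, (Real.cosh (μ * d2 X w) - 1) * (1 + deriv X w / 2)) ≤
        ∫ w in (G (Hh X u - β))..u, (1 + lam / 2) * (Real.cosh (μ * d2 X w) - 1) := by
      apply intervalIntegral.integral_mono_on hle
      · apply Continuous.intervalIntegrable
        exact hgc.mul (continuous_const.add (hc1.div_const 2))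
      · apply Continuous.intervalIntegrable
        exact continuous_const.mul hgc
      · intro x _
        rw [mul_comm]
        exact mul_le_mul_of_nonneg_right (hup x) (hg0 x)
    rw [intervalIntegral.integral_const_mul] at h1
    have h2 : (∫ w in (G (Hh X u - β))..u, (Real.cosh (μ * d2 X w) - 1)) ≤ KK X μ := by
      unfold KK
      apply RI2_int (fun w => Real.cosh (μ * d2 X w) - 1) hgc hg0 _ _ _ hle
      intro x hx
      rw [hzz x hx]
      simp
    have h3 := mul_le_mul_of_nonneg_left h2 (by linarith : (0 : ℝ) ≤ 1 + lam / 2)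
    linarith
  · have e := (hRI1 X G p q a lam hSH hG (fun w => μ * d2 X w) (continuous_const.mul hc2) u β).1
    rw [e]
    have hF : ∀ x, HasDerivAt (fun w => μ * (deriv X w + deriv X w ^ 2 / 4)) (μ * d2 X x * (1 + deriv X x / 2)) x := by
      intro x
      have h1 := ((hd x).add (((hd x).pow 2).div_const 4)).const_mul μ
      refine h1.congr_deriv ?_
      push_cast
      ring
    have h2 : (∫ w in (G (Hh X u - β))..u, μ * d2 X w * (1 + deriv X w / 2)) =
        μ * (deriv X u + deriv X u ^ 2 / 4) - μ * (deriv X (G (Hh X u - β)) + deriv X (G (Hh X u - β)) ^ 2 / 4) := by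
      apply intervalIntegral.integral_eq_sub_of_hasDerivAt (f := fun w => μ * (deriv X w + deriv X w ^ 2 / 4))
      · intro x _
        exact hF x
      · apply Continuous.intervalIntegrable
        exact (continuous_const.mul hc2).mul (continuous_const.add (hc1.div_const 2))
    rw [h2, ← mul_sub, abs_mul, abs_of_nonneg hμ]
    have ha1 := hX1 u
    have ha2 := hX1 (G (Hh X u - β))
    set s := deriv X u
    set t := deriv X (G (Hh X u - β))
    have hs := abs_le.1 ha1
    have ht := abs_le.1 ha2
    have hs2 : s ^ 2 ≤ lam * lam := by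
      rw [← sq_abs, sq]
      exact mul_le_mul ha1 ha1 (abs_nonneg _) hl0
    have ht2 : t ^ 2 ≤ lam * lam := by
      rw [← sq_abs, sq]
      exact mul_le_mul ha2 ha2 (abs_nonneg _) hl0
    have hll : lam * lam ≤ lam * (1 / 8) := mul_le_mul_of_nonneg_left hl1 hl0
    have hs0 := sq_nonneg s
    have ht0 := sq_nonneg t
    have hb : |s + s ^ 2 / 4 - (t + t ^ 2 / 4)| ≤ 3 * lam := by
      rw [abs_le]
      constructor
      · linarith [hs.1, hs.2, ht.1, ht.2]
      · linarith [hs.1, hs.2, ht.1, ht.2]
    calc μ * |s + s ^ 2 / 4 - (t + t ^ 2 / 4)| ≤ μ * (3 * lam) := mul_le_mul_of_nonneg_left hb hμ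
      _ = 3 * μ * lam := by ring
  · have hgc : Continuous (fun w => μ * d2 X w / (1 + deriv X w / 2)) := by
      apply (continuous_const.mul hc2).div (continuous_const.add (hc1.div_const 2))
      intro x
      have := hpos x
      intro h
      simp only [Pi.add_apply] at h
      linarith
    have e := (hRI1 X G p q a lam hSH hG (fun w => μ * d2 X w / (1 + deriv X w / 2)) hgc u β).2
    rw [e]
    have h1 : (∫ w in u..(G (Hh X u + β)), μ * d2 X w / (1 + deriv X w / 2) * (1 + deriv X w / 2)) =
        ∫ w in u..(G (Hh X u + β)), μ * d2 X w := by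
      apply intervalIntegral.integral_congr
      intro x _
      have := hpos x
      exact div_mul_cancel₀ _ (by linarith)
    have h2 : (∫ w in u..(G (Hh X u + β)), μ * d2 X w) = μ * deriv X (G (Hh X u + β)) - μ * deriv X u := by
      apply intervalIntegral.integral_eq_sub_of_hasDerivAt (f := fun w => μ * deriv X w)
      · intro x _
        exact (hd x).const_mul μ
      · apply Continuous.intervalIntegrable
        exact continuous_const.mul hc2
    rw [h1, h2, ← mul_sub, abs_mul, abs_of_nonneg hμ]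
    have ha1 := abs_le.1 (hX1 u)
    have ha2 := abs_le.1 (hX1 (G (Hh X u + β)))
    have hb : |deriv X (G (Hh X u + β)) - deriv X u| ≤ 2 * lam := by
      rw [abs_le]
      constructor
      · linarith [ha1.1, ha1.2, ha2.1, ha2.2]
      · linarith [ha1.1, ha1.2, ha2.1, ha2.2]
    calc μ * |deriv X (G (Hh X u + β)) - deriv X u| ≤ μ * (2 * lam) := mul_le_mul_of_nonneg_left hb hμ
      _ = 2 * μ * lam := by ring

end Pool.Agent.helper64.D2
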