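import Pool.Agent.helper64.D2.SpecC

set_option autoImplicit false

open Filter Topology
open scoped commutatorElement

namespace Pool.Agent.helper64.D2

/-! ## Calculus preliminaries -/

theorem STP_d1 (X : ℝ → ℝ) (hX : ContDiff ℝ 2 X) (x : ℝ) : HasDerivAt X (deriv X x) x :=
  ((hX.differentiable (by norm_num)) x).hasDerivAt

theorem STP_c1 (X : ℝ → ℝ) (hX : ContDiff ℝ 2 X) : ContDiff ℝ 1 (deriv X) := by
  have h : ContDiff ℝ (1 + 1) X := by
    have e : (1 + 1 : WithTop ℕ∞) = 2 := by norm_num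
    rw [e]
    exact hX
  exact (contDiff_succ_iff_deriv.1 h).2.2

theorem STP_d2 (X : ℝ → ℝ) (hX : ContDiff ℝ 2 X) (x : ℝ) : HasDerivAt (deriv X) (d2 X x) x :=
  (((STP_c1 X hX).differentiable (by norm_num)) x).hasDerivAt

theorem STP_lip (f f' : ℝ → ℝ) (K : ℝ) (hf : ∀ x, HasDerivAt f (f' x) x) (hK : ∀ x, |f' x| ≤ K) (x y : ℝ) :
    |f x - f y| ≤ K * |x - y| := by
  have h := Convex.norm_image_sub_le_of_norm_hasDerivWithin_le (f := f) (f' := f') (s := Set.univ) (C := K)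
    (x := y) (y := x) (fun z _ => (hf z).hasDerivWithinAt) (fun z _ => hK z) convex_univ (Set.mem_univ _)
    (Set.mem_univ _)
  simpa [Real.norm_eq_abs] using h

/-- the homeomorphism `id + X / 2` -/
theorem STP_homeo (X : ℝ → ℝ) (lam : ℝ) (hX : ContDiff ℝ 2 X) (hlam : lam ≤ 1 / 8)
    (h1 : ∀ x, |deriv X x| ≤ lam) : ∃ H : ℝ ≃ₜ ℝ, (∀ x, H x = x + X x / 2) ∧ ContDiff ℝ 2 H.symm := by
  have hd : ∀ x, HasDerivAt (fun x => x + X x / 2) (1 + deriv X x / 2) x := fun x =>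
    (hasDerivAt_id x).add ((STP_d1 X hX x).div_const 2)
  have hb : ∀ x, 15 / 16 ≤ 1 + deriv X x / 2 := by
    intro x
    have := (abs_le.1 (h1 x)).1
    linarith
  have hcont : Continuous (fun x => x + X x / 2) :=
    continuous_iff_continuousAt.2 fun x => (hd x).continuousAt
  have hmono : StrictMono (fun x => x + X x / 2) :=
    strictMono_of_deriv_pos fun x => by
      rw [(hd x).deriv]
      linarith [hb x]
  have hgrow : ∀ x y, x ≤ y → 15 / 16 * (y - x) ≤ (y + X y / 2) - (x + X x / 2) := by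
    intro x y hxy
    have h3 := STP_lip X (deriv X) lam (STP_d1 X hX) h1 y x
    rw [abs_of_nonneg (sub_nonneg.2 hxy)] at h3
    have h4 := (abs_le.1 h3).1
    nlinarith
  have hsurj : Function.Surjective (fun x => x + X x / 2) := by
    apply hcont.surjective
    · refine tendsto_atTop_mono' atTop ?_ (tendsto_atTop_add_const_right atTop (0 + X 0 / 2)
        (tendsto_id.const_mul_atTop (by norm_num : (0 : ℝ) < 15 / 16)))
      filter_upwards [eventually_ge_atTop (0 : ℝ)] with y hy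
      have := hgrow 0 y hy
      simp only [id]
      linarith
    · refine tendsto_atBot_mono' atBot ?_ (tendsto_atBot_add_const_right atBot (0 + X 0 / 2)
        (tendsto_id.const_mul_atBot (by norm_num : (0 : ℝ) < 15 / 16)))
      filter_upwards [eventually_le_atBot (0 : ℝ)] with y hy
      have := hgrow y 0 hy
      simp only [id]
      linarith
  set H : ℝ ≃ₜ ℝ := (StrictMono.orderIsoOfSurjective _ hmono hsurj).toHomeomorph with hH
  have hHx : ∀ x, H x = x + X x / 2 := fun x => rfl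
  refine ⟨H, hHx, ?_⟩
  refine Homeomorph.contDiff_symm_deriv (f := H) (f' := fun x => 1 + deriv X x / 2) (n := 2) ?_ ?_ ?_
  · intro x
    have := hb x
    exact ne_of_gt (by linarith)
  · intro x
    exact hd x
  · exact contDiff_id.add (hX.div_const 2)

/-! ## Numerical lemmas -/

theorem STP_th (s lam : ℝ) (hs : |s| ≤ lam) (hlam : lam ≤ 1 / 8) : 15 / 16 ≤ 1 + s / 2 ∧
    |s / 2 / (1 + s / 2)| ≤ 8 / 15 * lam := by
  obtain ⟨h1, h2⟩ := abs_le.1 hs
  have hD : 15 / 16 ≤ 1 + s / 2 := by linarith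
  refine ⟨hD, ?_⟩
  rw [abs_div, abs_of_pos (by linarith : 0 < 1 + s / 2), div_le_iff₀ (by linarith)]
  have h3 : |s / 2| = |s| / 2 := by rw [abs_div, abs_of_pos (by norm_num : (0 : ℝ) < 2)]
  rw [h3]
  have hl : 0 ≤ lam := le_trans (abs_nonneg _) hs
  nlinarith

theorem STP_v1 (r s lam : ℝ) (hr : |r| ≤ lam) (hs : |s| ≤ lam) (hlam : lam ≤ 1 / 8) :
    |(1 + r / 2) / (1 + s / 2) - 1| ≤ 16 / 15 * lam := by
  obtain ⟨h1, h2⟩ := abs_le.1 hs
  obtain ⟨h3, h4⟩ := abs_le.1 hr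
  have hD : 15 / 16 ≤ 1 + s / 2 := by linarith
  have hD0 : 1 + s / 2 ≠ 0 := by linarith
  have e : (1 + r / 2) / (1 + s / 2) - 1 = (r - s) / 2 / (1 + s / 2) := by
    rw [div_sub_one hD0]
    congr 1
    ring
  rw [e, abs_div, abs_of_pos (by linarith : 0 < 1 + s / 2), div_le_iff₀ (by linarith)]
  have hl : 0 ≤ lam := le_trans (abs_nonneg _) hs
  have h5 : |(r - s) / 2| ≤ lam := by
    rw [abs_le]
    constructor <;> linarith
  nlinarith

theorem STP_num1 (A B V t a lam : ℝ) (hA : |A| ≤ a) (hB : |B| ≤ a) (hV : |V - 1| ≤ 16 / 15 * lam)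
    (ht : |t| ≤ 8 / 15 * lam) (hl0 : 0 ≤ lam) (hl : lam ≤ 1 / 8) :
    |V ^ 2 * (1 - t) - 1| ≤ 3 * lam ∧ |A / 2 * t + B / 2 * (V ^ 2 * (1 - t) - 1)| ≤ 2 * lam * a := by
  have ha : 0 ≤ a := le_trans (abs_nonneg _) hA
  have hV2 : |V| ≤ 17 / 15 := by
    have : V = (V - 1) + 1 := by ring
    calc |V| = |(V - 1) + 1| := by rw [← this]
      _ ≤ |V - 1| + |1| := abs_add_le _ _
      _ ≤ 17 / 15 := by rw [abs_one]; linarith
  have hV3 : |V + 1| ≤ 32 / 15 := by
    calc |V + 1| ≤ |V| + |1| := abs_add_le _ _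
      _ ≤ 32 / 15 := by rw [abs_one]; linarith
  have h1 : |V ^ 2 * (1 - t) - 1| ≤ 3 * lam := by
    have e : V ^ 2 * (1 - t) - 1 = (V - 1) * (V + 1) - V * V * t := by ring
    rw [e]
    calc |(V - 1) * (V + 1) - V * V * t| ≤ |(V - 1) * (V + 1)| + |V * V * t| := abs_sub _ _
      _ = |V - 1| * |V + 1| + |V| * |V| * |t| := by rw [abs_mul, abs_mul, abs_mul]
      _ ≤ (16 / 15 * lam) * (32 / 15) + 17 / 15 * (17 / 15) * (8 / 15 * lam) := by gcongr
      _ ≤ 3 * lam := by linarith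
  refine ⟨h1, ?_⟩
  calc |A / 2 * t + B / 2 * (V ^ 2 * (1 - t) - 1)| ≤ |A / 2 * t| + |B / 2 * (V ^ 2 * (1 - t) - 1)| := abs_add_le _ _
    _ = |A| / 2 * |t| + |B| / 2 * |V ^ 2 * (1 - t) - 1| := by
        rw [abs_mul, abs_mul, abs_div, abs_div, abs_of_pos (by norm_num : (0 : ℝ) < 2)]
    _ ≤ a / 2 * (8 / 15 * lam) + a / 2 * (3 * lam) := by gcongr
    _ ≤ 2 * lam * a := by nlinarith [mul_nonneg hl0 ha]

/-- Lipschitz estimate of `t` and `V`. -/
theorem STP_lth (s s' lam K : ℝ) (hs : |s| ≤ lam) (hs' : |s'| ≤ lam) (hlam : lam ≤ 1 / 8) (hK : |s - s'| ≤ K) :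
    |s / 2 / (1 + s / 2) - s' / 2 / (1 + s' / 2)| ≤ 128 / 225 * K := by
  obtain ⟨h1, h2⟩ := abs_le.1 hs
  obtain ⟨h3, h4⟩ := abs_le.1 hs'
  have hD : 15 / 16 ≤ 1 + s / 2 := by linarith
  have hD' : 15 / 16 ≤ 1 + s' / 2 := by linarith
  have hD0 : 1 + s / 2 ≠ 0 := by linarith
  have hD0' : 1 + s' / 2 ≠ 0 := by linarith
  have e : s / 2 / (1 + s / 2) - s' / 2 / (1 + s' / 2) = (s - s') / 2 / ((1 + s / 2) * (1 + s' / 2)) := by
    rw [div_sub_div _ _ hD0 hD0']
    congr 1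
    ring
  have hDD : 225 / 256 ≤ (1 + s / 2) * (1 + s' / 2) := by nlinarith
  have hK0 : 0 ≤ K := le_trans (abs_nonneg _) hK
  rw [e, abs_div, abs_of_pos (by linarith : 0 < (1 + s / 2) * (1 + s' / 2)), div_le_iff₀ (by linarith),
    abs_div, abs_of_pos (by norm_num : (0 : ℝ) < 2)]
  nlinarith

theorem STP_lv1 (r r' s s' lam K K' : ℝ) (hr' : |r'| ≤ lam) (hs : |s| ≤ lam) (hs' : |s'| ≤ lam)
    (hlam : lam ≤ 1 / 8) (hK : |r - r'| ≤ K) (hK' : |s - s'| ≤ K') :
    |(1 + r / 2) / (1 + s / 2) - (1 + r' / 2) / (1 + s' / 2)| ≤ 8 / 15 * K + 136 / 225 * K' := by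
  obtain ⟨h1, h2⟩ := abs_le.1 hs
  obtain ⟨h3, h4⟩ := abs_le.1 hs'
  have hD : 15 / 16 ≤ 1 + s / 2 := by linarith
  have hD' : 15 / 16 ≤ 1 + s' / 2 := by linarith
  have hD0 : 1 + s / 2 ≠ 0 := by linarith
  have hD0' : 1 + s' / 2 ≠ 0 := by linarith
  have hK0 : 0 ≤ K := le_trans (abs_nonneg _) hK
  have hK0' : 0 ≤ K' := le_trans (abs_nonneg _) hK'
  have e : (1 + r / 2) / (1 + s / 2) - (1 + r' / 2) / (1 + s' / 2) =
      ((r - r') / 2 - (1 + r' / 2) / (1 + s' / 2) * ((s - s') / 2)) / (1 + s / 2) := by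
    have hw : (1 + r' / 2) / (1 + s' / 2) * (1 + s' / 2) = 1 + r' / 2 := div_mul_cancel₀ _ hD0'
    rw [eq_div_iff hD0, sub_mul, div_mul_cancel₀ _ hD0]
    linear_combination (-1 : ℝ) * hw
  have hv := STP_v1 r' s' lam hr' hs' hlam
  have hv' : |(1 + r' / 2) / (1 + s' / 2)| ≤ 17 / 15 := by
    have e2 : (1 + r' / 2) / (1 + s' / 2) = ((1 + r' / 2) / (1 + s' / 2) - 1) + 1 := by ring
    rw [e2]
    calc |((1 + r' / 2) / (1 + s' / 2) - 1) + 1| ≤ |(1 + r' / 2) / (1 + s' / 2) - 1| + |1| := abs_add_le _ _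
      _ ≤ 17 / 15 := by rw [abs_one]; linarith
  rw [e, abs_div, abs_of_pos (by linarith : 0 < 1 + s / 2), div_le_iff₀ (by linarith)]
  calc |(r - r') / 2 - (1 + r' / 2) / (1 + s' / 2) * ((s - s') / 2)|
      ≤ |(r - r') / 2| + |(1 + r' / 2) / (1 + s' / 2) * ((s - s') / 2)| := abs_sub _ _
    _ = |r - r'| / 2 + |(1 + r' / 2) / (1 + s' / 2)| * (|s - s'| / 2) := by
        rw [abs_mul, abs_div (r - r'), abs_div (s - s'), abs_of_pos (by norm_num : (0 : ℝ) < 2)]
    _ ≤ K / 2 + 17 / 15 * (K' / 2) := by gcongr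
    _ = (8 / 15 * K + 136 / 225 * K') * (15 / 16) := by ring
    _ ≤ (8 / 15 * K + 136 / 225 * K') * (1 + s / 2) := by gcongr

/-- The final Lipschitz estimate; `δ = |x - y|`. -/
theorem STP_num2 (A A' B B' V V' t t' a lam L δ : ℝ) (hA' : |A'| ≤ a) (hB' : |B'| ≤ a)
    (hV : |V - 1| ≤ 16 / 15 * lam) (hV' : |V' - 1| ≤ 16 / 15 * lam) (ht : |t| ≤ 8 / 15 * lam)
    (hl0 : 0 ≤ lam) (hl : lam ≤ 1 / 8) (hL : 0 ≤ L) (hδ : 0 ≤ δ)
    (hAA : |A - A'| ≤ L * δ) (hBB : |B - B'| ≤ L * ((1 + 16 / 15 * lam) * δ)) (hVV : |V - V'| ≤ 5 / 4 * a * δ)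
    (htt : |t - t'| ≤ 2 / 3 * a * δ) :
    |(A / 2 * (1 + t) + B / 2 * (V ^ 2 * (1 - t))) - (A' / 2 * (1 + t') + B' / 2 * (V' ^ 2 * (1 - t')))| ≤
      (L * (1 + 4 * lam) + 3 * a ^ 2) * δ := by
  have ha : 0 ≤ a := le_trans (abs_nonneg _) hA'
  have hV1 : |V| ≤ 1 + 16 / 15 * lam := by
    have : V = (V - 1) + 1 := by ring
    calc |V| = |(V - 1) + 1| := by rw [← this]
      _ ≤ |V - 1| + |1| := abs_add_le _ _
      _ ≤ 1 + 16 / 15 * lam := by rw [abs_one]; linarith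
  have hV1' : |V'| ≤ 1 + 16 / 15 * lam := by
    have : V' = (V' - 1) + 1 := by ring
    calc |V'| = |(V' - 1) + 1| := by rw [← this]
      _ ≤ |V' - 1| + |1| := abs_add_le _ _
      _ ≤ 1 + 16 / 15 * lam := by rw [abs_one]; linarith
  have ht1 : |1 + t| ≤ 1 + 8 / 15 * lam := by
    calc |1 + t| ≤ |1| + |t| := abs_add_le _ _
      _ ≤ 1 + 8 / 15 * lam := by rw [abs_one]; linarith
  have ht2 : |1 - t| ≤ 1 + 8 / 15 * lam := by
    calc |1 - t| ≤ |1| + |t| := abs_sub _ _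
      _ ≤ 1 + 8 / 15 * lam := by rw [abs_one]; linarith
  have hW : |V ^ 2 * (1 - t)| ≤ (1 + 16 / 15 * lam) ^ 2 * (1 + 8 / 15 * lam) := by
    rw [abs_mul, abs_pow]
    gcongr
  have hWW : |V ^ 2 * (1 - t) - V' ^ 2 * (1 - t')| ≤ 4 * a * δ := by
    have e : V ^ 2 * (1 - t) - V' ^ 2 * (1 - t') = (V - V') * (V + V') * (1 - t) - V' ^ 2 * (t - t') := by ring
    rw [e]
    have h1 : |V + V'| ≤ 34 / 15 := by
      calc |V + V'| ≤ |V| + |V'| := abs_add_le _ _
        _ ≤ 34 / 15 := by linarith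
    calc |(V - V') * (V + V') * (1 - t) - V' ^ 2 * (t - t')|
        ≤ |(V - V') * (V + V') * (1 - t)| + |V' ^ 2 * (t - t')| := abs_sub _ _
      _ = |V - V'| * |V + V'| * |1 - t| + |V'| ^ 2 * |t - t'| := by
          rw [abs_mul, abs_mul, abs_mul, abs_pow]
      _ ≤ 5 / 4 * a * δ * (34 / 15) * (16 / 15) + (17 / 15) ^ 2 * (2 / 3 * a * δ) := by
          gcongr
          · linarith
          · linarith
      _ ≤ 4 * a * δ := by nlinarith [mul_nonneg ha hδ]
  have e : (A / 2 * (1 + t) + B / 2 * (V ^ 2 * (1 - t))) - (A' / 2 * (1 + t') + B' / 2 * (V' ^ 2 * (1 - t'))) =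
      (A - A') / 2 * (1 + t) + A' / 2 * (t - t') + (B - B') / 2 * (V ^ 2 * (1 - t)) +
        B' / 2 * (V ^ 2 * (1 - t) - V' ^ 2 * (1 - t')) := by ring
  rw [e]
  have h2 : (0 : ℝ) < 2 := by norm_num
  calc |(A - A') / 2 * (1 + t) + A' / 2 * (t - t') + (B - B') / 2 * (V ^ 2 * (1 - t)) +
        B' / 2 * (V ^ 2 * (1 - t) - V' ^ 2 * (1 - t'))|
      ≤ |(A - A') / 2 * (1 + t)| + |A' / 2 * (t - t')| + |(B - B') / 2 * (V ^ 2 * (1 - t))| +
        |B' / 2 * (V ^ 2 * (1 - t) - V' ^ 2 * (1 - t'))| := by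
        refine le_trans (abs_add_le _ _) ?_
        gcongr
        refine le_trans (abs_add_le _ _) ?_
        gcongr
        exact abs_add_le _ _
    _ = |A - A'| / 2 * |1 + t| + |A'| / 2 * |t - t'| + |B - B'| / 2 * |V ^ 2 * (1 - t)| +
        |B'| / 2 * |V ^ 2 * (1 - t) - V' ^ 2 * (1 - t')| := by
        rw [abs_mul, abs_mul, abs_mul (((B - B') / 2)), abs_mul (B' / 2), abs_div, abs_div, abs_div, abs_div,
          abs_of_pos h2]
    _ ≤ L * δ / 2 * (1 + 8 / 15 * lam) + a / 2 * (2 / 3 * a * δ) +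
        L * ((1 + 16 / 15 * lam) * δ) / 2 * ((1 + 16 / 15 * lam) ^ 2 * (1 + 8 / 15 * lam)) +
        a / 2 * (4 * a * δ) := by gcongr
    _ ≤ (L * (1 + 4 * lam) + 3 * a ^ 2) * δ := by
        have hc : (1 + 16 / 15 * lam) ^ 3 * (1 + 8 / 15 * lam) ≤ 1 + 5 * lam := by
          have h3 : (1 + 16 / 15 * lam) ^ 2 ≤ 1 + 7 / 3 * lam := by nlinarith
          have h4 : (1 + 16 / 15 * lam) ^ 2 * (1 + 16 / 15 * lam) ≤ (1 + 7 / 3 * lam) * (1 + 16 / 15 * lam) := by
            gcongr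
          have h5 : (1 + 7 / 3 * lam) * (1 + 16 / 15 * lam) ≤ 1 + 15 / 4 * lam := by nlinarith
          have h6 : (1 + 16 / 15 * lam) ^ 3 ≤ 1 + 15 / 4 * lam := by
            calc (1 + 16 / 15 * lam) ^ 3 = (1 + 16 / 15 * lam) ^ 2 * (1 + 16 / 15 * lam) := by ring
              _ ≤ _ := h4.trans h5
          calc (1 + 16 / 15 * lam) ^ 3 * (1 + 8 / 15 * lam) ≤ (1 + 15 / 4 * lam) * (1 + 8 / 15 * lam) := by
                gcongr
            _ ≤ 1 + 5 * lam := by nlinarith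
        have hLd : 0 ≤ L * δ := mul_nonneg hL hδ
        have h7 : L * ((1 + 16 / 15 * lam) * δ) / 2 * ((1 + 16 / 15 * lam) ^ 2 * (1 + 8 / 15 * lam)) =
            L * δ / 2 * ((1 + 16 / 15 * lam) ^ 3 * (1 + 8 / 15 * lam)) := by ring
        have h8 : L * δ / 2 * ((1 + 16 / 15 * lam) ^ 3 * (1 + 8 / 15 * lam)) ≤ L * δ / 2 * (1 + 5 * lam) := by
          gcongr
        have h9 : 0 ≤ L * δ * lam := mul_nonneg hLd hl0
        have h10 : 0 ≤ a ^ 2 * δ := by positivity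
        rw [h7]
        nlinarith

theorem STP_quo (D A B V : ℝ) (hD : D ≠ 0) :
    (A / 2 * D - V * D * (B * V / 2)) / D ^ 2 = (A / 2 - B * V ^ 2 / 2) / D := by
  field_simp

theorem STP : STP_stmt := by
  intro X p q a L lam θ hX hsupp h1 h2 hL hlam ha hL0 hθ hpq
  have hl0 : 0 ≤ lam := le_trans (abs_nonneg _) (h1 0)
  have ha0 : 0 ≤ a := le_trans (abs_nonneg _) (h2 0)
  obtain ⟨H, hH, hHs⟩ := STP_homeo X lam hX hlam h1
  set v : ℝ → ℝ := fun u => H.symm (H u - θ) with hv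
  have hHv : ∀ u, v u + X (v u) / 2 = u + X u / 2 - θ := by
    intro u
    have : H (v u) = H u - θ := H.apply_symm_apply _
    rw [hH, hH] at this
    exact this
  have hvC : ContDiff ℝ 2 v := by
    have h3 : ContDiff ℝ 2 (fun u => H u - θ) := by
      have e : (fun u => H u - θ) = fun u => u + X u / 2 - θ := by
        funext u
        rw [hH]
      rw [e]
      exact (contDiff_id.add (hX.div_const 2)).sub contDiff_const
    exact hHs.comp h3
  have hXv : ContDiff ℝ 2 (fun u => X (v u)) := hX.comp hvC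
  -- first derivative of `v`
  have hvd : ∀ u, HasDerivAt v ((1 + deriv X u / 2) / (1 + deriv X (v u) / 2)) u := by
    intro u
    have e1 := STP_d1 v hvC u
    have e2 : HasDerivAt (fun u => v u + X (v u) / 2) (deriv v u + deriv X (v u) * deriv v u / 2) u :=
      e1.add (((STP_d1 X hX (v u)).comp u e1).div_const 2)
    have e3 : HasDerivAt (fun u => u + X u / 2 - θ) (1 + deriv X u / 2) u :=
      ((hasDerivAt_id u).add ((STP_d1 X hX u).div_const 2)).sub_const θ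
    have e4 : (fun u => v u + X (v u) / 2) = fun u => u + X u / 2 - θ := funext hHv
    rw [e4] at e2
    have e5 := e2.unique e3
    have e6 : 0 < 1 + deriv X (v u) / 2 := by
      have := (STP_th _ lam (h1 (v u)) hlam).1
      linarith
    have e7 : deriv v u = (1 + deriv X u / 2) / (1 + deriv X (v u) / 2) := by
      rw [eq_div_iff e6.ne', ← e5]
      ring
    rw [← e7]
    exact e1
  have hvd' : ∀ u, deriv v u = (1 + deriv X u / 2) / (1 + deriv X (v u) / 2) := fun u => (hvd u).deriv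
  set V : ℝ → ℝ := fun u => (1 + deriv X u / 2) / (1 + deriv X (v u) / 2) with hV
  set t : ℝ → ℝ := fun u => deriv X (v u) / 2 / (1 + deriv X (v u) / 2) with ht
  have hV1 : ∀ u, |V u - 1| ≤ 16 / 15 * lam := fun u => STP_v1 _ _ _ (h1 u) (h1 (v u)) hlam
  have ht1 : ∀ u, |t u| ≤ 8 / 15 * lam := fun u => (STP_th _ _ (h1 (v u)) hlam).2
  have hD : ∀ u, 15 / 16 ≤ 1 + deriv X (v u) / 2 := fun u => (STP_th _ _ (h1 (v u)) hlam).1
  have hV2 : ∀ u, |V u| ≤ 1 + 16 / 15 * lam := by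
    intro u
    have e1 : V u = (V u - 1) + 1 := by ring
    calc |V u| = |(V u - 1) + 1| := by rw [← e1]
      _ ≤ |V u - 1| + |1| := abs_add_le _ _
      _ ≤ 1 + 16 / 15 * lam := by rw [abs_one]; linarith [hV1 u]
  have hvLip : ∀ x y, |v x - v y| ≤ (1 + 16 / 15 * lam) * |x - y| := STP_lip v V _ hvd hV2
  have hXLip : ∀ x y, |X x - X y| ≤ lam * |x - y| := STP_lip X (deriv X) lam (STP_d1 X hX) h1
  have hX1Lip : ∀ x y, |deriv X x - deriv X y| ≤ a * |x - y| := STP_lip (deriv X) (d2 X) a (STP_d2 X hX) h2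
  -- the new function
  set Y : ℝ → ℝ := fun u => X u / 2 + X (v u) / 2 with hY
  have hYC : ContDiff ℝ 2 Y := (hX.div_const 2).add (hXv.div_const 2)
  have hYd : ∀ u, HasDerivAt Y (deriv X u / 2 + deriv X (v u) * V u / 2) u := fun u =>
    ((STP_d1 X hX u).div_const 2).add (((STP_d1 X hX (v u)).comp u (hvd u)).div_const 2)
  have hYd' : deriv Y = fun u => deriv X u / 2 + deriv X (v u) * V u / 2 := funext fun u => (hYd u).deriv
  have hVd : ∀ u, HasDerivAt V ((d2 X u / 2 - d2 X (v u) * V u ^ 2 / 2) / (1 + deriv X (v u) / 2)) u := by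
    intro u
    have e6 : 1 + deriv X (v u) / 2 ≠ 0 := by
      have := hD u
      exact ne_of_gt (by linarith)
    have e1 : HasDerivAt (fun u => 1 + deriv X u / 2) (d2 X u / 2) u :=
      ((STP_d2 X hX u).div_const 2).const_add 1
    have e2 : HasDerivAt (fun u => 1 + deriv X (v u) / 2) (d2 X (v u) * V u / 2) u :=
      (((STP_d2 X hX (v u)).comp u (hvd u)).div_const 2).const_add 1
    have e3 := e1.div e2 e6
    have e4 : (d2 X u / 2 * (1 + deriv X (v u) / 2) - (1 + deriv X u / 2) * (d2 X (v u) * V u / 2)) /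
        (1 + deriv X (v u) / 2) ^ 2 = (d2 X u / 2 - d2 X (v u) * V u ^ 2 / 2) / (1 + deriv X (v u) / 2) := by
      have e5 : 1 + deriv X u / 2 = V u * (1 + deriv X (v u) / 2) := (div_mul_cancel₀ _ e6).symm
      rw [e5]
      exact STP_quo _ _ _ _ e6
    rw [e4] at e3
    exact e3
  have hYdd : ∀ u, d2 Y u = d2 X u / 2 * (1 + t u) + d2 X (v u) / 2 * (V u ^ 2 * (1 - t u)) := by
    intro u
    have e1 : HasDerivAt (fun u => deriv X u / 2 + deriv X (v u) * V u / 2)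
        (d2 X u / 2 + (d2 X (v u) * V u * V u + deriv X (v u) *
          ((d2 X u / 2 - d2 X (v u) * V u ^ 2 / 2) / (1 + deriv X (v u) / 2))) / 2) u :=
      ((STP_d2 X hX u).div_const 2).add
        ((((STP_d2 X hX (v u)).comp u (hvd u)).mul (hVd u)).div_const 2)
    have e2 : d2 Y u = d2 X u / 2 + (d2 X (v u) * V u * V u + deriv X (v u) *
          ((d2 X u / 2 - d2 X (v u) * V u ^ 2 / 2) / (1 + deriv X (v u) / 2))) / 2 := by
      unfold d2 at e1 ⊢
      rw [hYd']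
      exact e1.deriv
    rw [e2]
    have e3 : t u = deriv X (v u) / 2 / (1 + deriv X (v u) / 2) := rfl
    have e4 : deriv X (v u) * ((d2 X u / 2 - d2 X (v u) * V u ^ 2 / 2) / (1 + deriv X (v u) / 2)) =
        t u * (d2 X u - d2 X (v u) * V u ^ 2) := by
      rw [e3]
      ring
    rw [e4]
    ring
  have hest : ∀ u, |d2 Y u - (d2 X u + d2 X (v u)) / 2| ≤ 2 * lam * a := by
    intro u
    have e1 : d2 Y u - (d2 X u + d2 X (v u)) / 2 =
        d2 X u / 2 * t u + d2 X (v u) / 2 * (V u ^ 2 * (1 - t u) - 1) := by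
      rw [hYdd]
      ring
    rw [e1]
    exact (STP_num1 _ _ _ _ a lam (h2 u) (h2 (v u)) (hV1 u) (ht1 u) hl0 hlam).2
  refine ⟨v, Y, hHv, fun u => rfl, hvC, hYC, ?_, hvd', ?_, ?_, hest, ?_, ?_⟩
  · intro u
    have e1 : v u - (u - θ) = (X u - X (v u)) / 2 := by linarith [hHv u]
    have e2 := hXLip u (v u)
    have e3 : |u - v u| ≤ θ + |v u - (u - θ)| := by
      have : u - v u = θ - (v u - (u - θ)) := by ring
      rw [this]
      calc |θ - (v u - (u - θ))| ≤ |θ| + |v u - (u - θ)| := abs_sub _ _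
        _ = θ + |v u - (u - θ)| := by rw [abs_of_nonneg hθ]
    have e4 : |v u - (u - θ)| = |X u - X (v u)| / 2 := by
      rw [e1, abs_div, abs_of_pos (by norm_num : (0 : ℝ) < 2)]
    have e5 : |v u - (u - θ)| ≤ lam / 2 * (θ + |v u - (u - θ)|) := by
      calc |v u - (u - θ)| = |X u - X (v u)| / 2 := e4
        _ ≤ lam * |u - v u| / 2 := by gcongr
        _ ≤ lam * (θ + |v u - (u - θ)|) / 2 := by gcongr
        _ = lam / 2 * (θ + |v u - (u - θ)|) := by ring
    nlinarith [abs_nonneg (v u - (u - θ)), mul_nonneg hl0 hθ,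
      mul_nonneg hl0 (abs_nonneg (v u - (u - θ)))]
  · intro u hu
    have e1 : X u = 0 := by
      apply hsupp
      intro h
      exact hu ⟨h.1, by linarith [h.2]⟩
    have e2 : X (u - θ) = 0 := by
      apply hsupp
      intro h
      exact hu ⟨by linarith [h.1], by linarith [h.2]⟩
    have e3 : v u = u - θ := by
      apply H.injective
      rw [hH, hH, hHv, e1, e2]
      ring
    show X u / 2 + X (v u) / 2 = 0
    rw [e3, e1, e2]
    norm_num
  · intro u
    rw [hYd']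
    have e1 : |deriv X u / 2 + deriv X (v u) * V u / 2| ≤ lam / 2 + lam * (1 + 16 / 15 * lam) / 2 := by
      calc |deriv X u / 2 + deriv X (v u) * V u / 2| ≤ |deriv X u / 2| + |deriv X (v u) * V u / 2| := abs_add_le _ _
        _ = |deriv X u| / 2 + |deriv X (v u)| * |V u| / 2 := by
            rw [abs_div, abs_div, abs_mul, abs_of_pos (by norm_num : (0 : ℝ) < 2)]
        _ ≤ lam / 2 + lam * (1 + 16 / 15 * lam) / 2 := by
            gcongr
            · exact h1 u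
            · exact h1 _
            · exact hV2 u
    refine e1.trans ?_
    nlinarith [mul_nonneg hl0 hl0]
  · intro u
    have e1 := hest u
    have e2 : |(d2 X u + d2 X (v u)) / 2| ≤ a := by
      have h3 := abs_le.1 (h2 u)
      have h4 := abs_le.1 (h2 (v u))
      rw [abs_le]
      constructor <;> linarith [h3.1, h3.2, h4.1, h4.2]
    calc |d2 Y u| = |(d2 Y u - (d2 X u + d2 X (v u)) / 2) + (d2 X u + d2 X (v u)) / 2| := by ring_nf
      _ ≤ |d2 Y u - (d2 X u + d2 X (v u)) / 2| + |(d2 X u + d2 X (v u)) / 2| := abs_add_le _ _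
      _ ≤ 2 * lam * a + a := add_le_add e1 e2
      _ = a * (1 + 2 * lam) := by ring
  · intro x y
    rw [hYdd x, hYdd y]
    have hs : |deriv X (v x) - deriv X (v y)| ≤ 17 / 15 * a * |x - y| := by
      calc |deriv X (v x) - deriv X (v y)| ≤ a * |v x - v y| := hX1Lip _ _
        _ ≤ a * ((1 + 16 / 15 * lam) * |x - y|) := by
            gcongr
            exact hvLip x y
        _ ≤ a * (17 / 15 * |x - y|) := by
            gcongr
            linarith
        _ = 17 / 15 * a * |x - y| := by ring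
    refine STP_num2 _ _ _ _ _ _ _ _ a lam L |x - y| (h2 y) (h2 (v y)) (hV1 x) (hV1 y) (ht1 x) hl0 hlam hL0
      (abs_nonneg _) (hL x y) ?_ ?_ ?_
    · calc |d2 X (v x) - d2 X (v y)| ≤ L * |v x - v y| := hL _ _
        _ ≤ L * ((1 + 16 / 15 * lam) * |x - y|) := by
            gcongr
            exact hvLip x y
    · have := STP_lv1 (deriv X x) (deriv X y) (deriv X (v x)) (deriv X (v y)) lam (a * |x - y|)
        (17 / 15 * a * |x - y|) (h1 y) (h1 _) (h1 _) hlam (hX1Lip x y) hs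
      refine this.trans ?_
      nlinarith [mul_nonneg ha0 (abs_nonneg (x - y))]
    · have := STP_lth (deriv X (v x)) (deriv X (v y)) lam (17 / 15 * a * |x - y|) (h1 _) (h1 _) hlam hs
      refine this.trans ?_
      nlinarith [mul_nonneg ha0 (abs_nonneg (x - y))]

end Pool.Agent.helper64.D2
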